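import Pool.Agent.N144.GF.Ex

/-!
# Shafarevich-type finiteness for polarized pure integral systems with a generic Frobenius

`F` is a number field, `n` a positive rank, `w` a weight, `S` and `S'` finite sets of primes and `Λ` a set
of primes. We look at the integral systems of the rank `n` over `F` (the lattices with Galois action
`T_ℓ` for all primes `ℓ`, and the Frobenius polynomials) which have the properties of the
realisations of a pure motive over `F` of weight `w` with a lattice and a polarization, with pure good
reduction outside `S` and semistable reduction in `S`, whose polarization is perfect outside `S'`. There is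
no condition on the Hodge numbers. The systems are assumed to have, for each `ℓ` in `Λ`, a prime number
`p ≠ ℓ` outside `S`, completely split in `F`, which may depend on the system, and whose Frobenius
polynomials above `p` are generic: there is no nontrivial isotropic relation between their roots
(`IsGenericAt`). The first part: up to isomorphism of all lattices `T_ℓ` for `ℓ` in `Λ`, there are only
finitely many such systems. The second part: for `F = ℚ` and the ranks `n ≤ 5`, and `n = 6` if the weight is
odd, the Frobenius polynomial at `p` is generic as soon as it has no multiple root.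
-/

set_option autoImplicit false
set_option linter.all false

namespace Pool.Agent.Results.MP_78e9a5_nt.GenericFrobenius

open Pool.Agent.R390.SF Pool.Agent.R390.SF.IntegralSystem NumberField Pool.Agent.N144.GF

/-- Finiteness of the polarized pure integral systems with generic Frobenius polynomials above one
completely split prime number, and the criterion for the genericity over `ℚ` in small rank. -/
theorem result :
    (∀ (F : SubFld ℚ) [FiniteDimensional ℚ F] (n : ℕ), 0 < n →
      ∀ (w : ℕ) (S S' : Finset ℕ) (Λ : Set ℕ),
        ∃ (m : ℕ) (T : Fin m → IntegralSystem F n), (∀ i, InClass S S' w Λ (T i)) ∧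
          ∀ T' : IntegralSystem F n, InClass S S' w Λ T' → ∃ i, IsomorphicOn Λ (T i) T') ∧
    (∀ (F : SubFld ℚ) [FiniteDimensional ℚ F], Module.finrank ℚ F = 1 →
      ∀ (n w : ℕ) (S : Finset ℕ) (T : IntegralSystem F n) (p : ℕ),
        T.GoodSystem S w → (n ≤ 5 ∨ (n ≤ 6 ∧ Odd w)) → p.Prime → p ∉ S →
        (∀ 𝔭 ∈ placesAbove F p, ((T.poly 𝔭).aroots ℂ).Nodup) → IsGenericAt T w p) :=
  ⟨fun F _ n hn w S S' Λ => gen_finiteness hn w S S' Λ,
    fun F _ h1 n w S T p hT hn hp hpS hnd => generic_of_nodup h1 hT hn hp hpS hnd⟩

end Pool.Agent.Results.MP_78e9a5_nt.GenericFrobenius
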