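import Pool.Agent.N180.SR.Fin

/-!
# Finiteness of pure integral systems and residual irreducibility

`F` is a number field, `n ≥ 1`, `w ≥ 0`, `S` a finite set of primes, `Λ` a set of primes. We consider
the systems `T = (T_ℓ)_ℓ` of Galois representations of `F` of rank `n` with good reduction outside `S`,
pure of weight `w` (the realisations of pure motives of weight `w` over `F` together with a lattice),
whose representations on `V_ℓ = T_ℓ ⊗ ℚ_ℓ` are semisimple for `ℓ` in `Λ` (known for abelian varieties,
expected for all pure motives).

Theorem. Let `Cl` be any class of such systems which with `(V, T)` contains all `(V, T')`, `T'` another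
stable lattice which differs from `T` at one prime (for instance the class of all of them, or all the
pure `ℤ`-motives in the problem, or those with given Hodge numbers, coefficients, polarizability of
`V`, and so on). The following conditions are equivalent.

(1) Up to isomorphism of the `T_ℓ` for all `ℓ` in `Λ` there are only finitely many systems in `Cl`.

(2) The same for the systems in `Cl` with given Frobenius polynomials (one isogeny class), for each of
these families of polynomials.

(3) For each `T` in `Cl` and almost all `ℓ` in `Λ`, all the stable lattices of `V_ℓ` are isomorphic to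
`T_ℓ`.

If moreover the representations `V_ℓ`, `ℓ` in `Λ`, are absolutely irreducible, then these conditions are
equivalent to

(4) For each `T` in `Cl` the representation on `T_ℓ / ℓ` is irreducible for almost all `ℓ` in `Λ`.

So for absolutely irreducible pure motives the finiteness in the problem implies that the reductions
modulo `ℓ` are irreducible for almost all `ℓ`, which is not known in general; and conversely this
implies the finiteness of the systems of Galois modules `(T_ℓ)_ℓ`. There are no conditions on the
Hodge numbers, on polarizations, or on the reduction at the places in `S`.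

The starting hand-ins of this folder have the sufficiency of (4) (theorem `finiteness` in
`Pool.Agent.R390.SF.Main`) and prove (4) in special cases. Here the necessity is new, and the case of
semisimple reducible representations `V_ℓ`. We use Faltings' argument (finitely many traces, `Tr.lean`),
the theorems of Brauer and Nesbitt and of Jordan and Zassenhaus of `Pool.Agent.R390.SF`.

Author: helper180.
-/

set_option autoImplicit false

namespace Pool.Agent.Results.MP_78e9a5_nt.ResidualIrreducibility

open Pool.Agent.R390.SF Pool.Agent.R390.SF.IntegralSystem Pool.Agent.N180.SR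

/-- Finiteness up to isomorphism, uniqueness of the stable lattices at almost all primes, and
irreducibility of the reductions at almost all primes. -/
theorem result (F : SubFld ℚ) [FiniteDimensional ℚ F] (n w : ℕ) (hn : 0 < n) (S : Finset ℕ)
    (Λ : Set ℕ) (Cl : IntegralSystem F n → Prop)
    (hG : ∀ T, Cl T → T.GoodSystem S w)
    (hss : ∀ T, Cl T → ∀ (ℓ : ℕ) [Fact ℓ.Prime], ℓ ∈ Λ → Semis (T.rat ℓ))
    (hcl : ∀ (T T' : IntegralSystem F n) (p : ℕ), Cl T → p ∈ Λ → LatticeChange p T T' → Cl T') :
    List.TFAE
      [FiniteOn Λ Cl,
        ∀ T, Cl T → FiniteOn Λ (fun T' => Cl T' ∧ T'.poly = T.poly),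
        ∀ T, Cl T → ForAlmostAll Λ (fun ℓ _ => OneLattice ℓ T)] ∧
    ((∀ T, Cl T → ∀ (ℓ : ℕ) [Fact ℓ.Prime], ℓ ∈ Λ → AbsIrreducibleAt ℓ T) →
      (FiniteOn Λ Cl ↔ ∀ T, Cl T → ForAlmostAll Λ (fun ℓ _ => ResIrreducibleAt ℓ T))) := by
  have h12 : FiniteOn Λ Cl → ∀ T, Cl T → FiniteOn Λ (fun T' => Cl T' ∧ T'.poly = T.poly) :=
    fun h T _ => finiteOn_mono h fun T' hT' => hT'.1
  have h23 : (∀ T, Cl T → FiniteOn Λ (fun T' => Cl T' ∧ T'.poly = T.poly)) →
      ∀ T, Cl T → ForAlmostAll Λ (fun ℓ _ => OneLattice ℓ T) :=
    fun h T hT => one_of_finite hT hcl (h T hT)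
  have h31 : (∀ T, Cl T → ForAlmostAll Λ (fun ℓ _ => OneLattice ℓ T)) → FiniteOn Λ Cl :=
    fun h => finite_of_one hn hG hss h
  refine ⟨?_, fun habs => ?_⟩
  · tfae_have 1 → 2 := h12
    tfae_have 2 → 3 := h23
    tfae_have 3 → 1 := h31
    tfae_finish
  · constructor
    · intro h T hT
      obtain ⟨N, hN⟩ := h23 (h12 h) T hT
      exact ⟨N, fun ℓ _ hℓ hlt => (oneLattice_iff hn (habs T hT ℓ hℓ)).1 (hN ℓ hℓ hlt)⟩
    · intro h
      refine h31 fun T hT => ?_
      obtain ⟨N, hN⟩ := h T hT
      exact ⟨N, fun ℓ _ hℓ hlt => (oneLattice_iff hn (habs T hT ℓ hℓ)).2 (hN ℓ hℓ hlt)⟩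

end Pool.Agent.Results.MP_78e9a5_nt.ResidualIrreducibility
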